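import Pool.Agent.Y732.PS.CLFd

/-!
# PS-CLF: finiteness of Frobenius invariant classes

(helper732, project PS of helper157.)
-/

set_option autoImplicit false
set_option linter.all false

open Polynomial FF
open Pool.Agent.Y157.PS

namespace Pool.Agent.Y732.PS

/-- Hilbert 90: an element with `Φ h / h ∈ N` becomes invariant after multiplication -/
theorem hilbert {F K : Type} [Field F] [IsAlgClosed F] [Field K] [Algebra F K] (p : ℕ)
    [Fact p.Prime] [CharP F p] {q a : ℕ} (ha : 0 < a) (hq : q = p ^ a)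
    (N : IntermediateField F K) (Φ : K ≃+* K)
    (hconst : ∀ c : F, Φ (algebraMap F K c) = algebraMap F K (c ^ q))
    (hN : ∀ z, Φ z ∈ N ↔ z ∈ N) (horb : ∀ z : K, ∃ m : ℕ, 0 < m ∧ (Φ ^ m) z = z)
    {h : K} (hh : h ≠ 0) (hhN : Φ h / h ∈ N) :
    ∃ t : K, t ≠ 0 ∧ Φ t = t ∧ h * t ∈ N := by
  classical
  obtain ⟨m, hm, hmh⟩ := horb h
  obtain ⟨c, hc, hsum⟩ := exists_lin_ne (F := F) (RF := K) p ha hq
    (fun i => (Φ ^ i) h⁻¹) hm (by simpa using hh)
  refine ⟨∑ i ∈ Finset.range m, (Φ ^ i) h⁻¹ * algebraMap F K (c ^ (q ^ i)), hsum, ?_, ?_⟩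
  · have h1 : ∀ i, (Φ ^ i) h⁻¹ * algebraMap F K (c ^ (q ^ i)) =
        (Φ ^ i) (h⁻¹ * algebraMap F K c) := by
      intro i
      rw [map_mul, iter_const hconst]
    simp only [h1, map_sum]
    have h2 : ∀ i, Φ ((Φ ^ i) (h⁻¹ * algebraMap F K c)) = (Φ ^ (i + 1)) (h⁻¹ * algebraMap F K c) := by
      intro i
      rw [pow_succ', RingAut.mul_apply]
    simp only [h2]
    have h3 := Finset.sum_range_succ' (fun i => (Φ ^ i) (h⁻¹ * algebraMap F K c)) m
    have h4 := Finset.sum_range_succ (fun i => (Φ ^ i) (h⁻¹ * algebraMap F K c)) m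
    have h5 : (Φ ^ m) (h⁻¹ * algebraMap F K c) = h⁻¹ * algebraMap F K c := by
      rw [map_mul, iter_const hconst, hc, map_inv₀, hmh]
    rw [h4, h5] at h3
    simp only [pow_zero, RingAut.one_apply] at h3
    exact (add_right_cancel h3).symm
  · rw [Finset.mul_sum]
    refine sum_mem fun i _ => ?_
    rw [← mul_assoc]
    refine mul_mem ?_ (N.algebraMap_mem _)
    have h6 : ∀ i, (Φ ^ i) h / h ∈ N := by
      intro i
      induction i with
      | zero => simp [div_self hh, one_mem]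
      | succ i ih =>
        have h7 : (Φ ^ (i + 1)) h / h = Φ ((Φ ^ i) h / h) * (Φ h / h) := by
          rw [pow_succ', RingAut.mul_apply, map_div₀]
          have : Φ h ≠ 0 := by rwa [Ne, EmbeddingLike.map_eq_zero_iff]
          field_simp
        rw [h7]
        exact mul_mem ((hN _).2 ih) hhN
    have h8 : h * (Φ ^ i) h⁻¹ = ((Φ ^ i) h / h)⁻¹ := by
      rw [map_inv₀, inv_div, div_eq_mul_inv]
    rw [h8]
    exact inv_mem (h6 i)

/-- roots of unity are constants -/
theorem root_const {F K : Type} [Field F] [IsAlgClosed F] [Field K] [Algebra F K] {y : K} {n : ℕ}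
    (hn : 0 < n) (hy : y ^ n = 1) : ∃ c : F, algebraMap F K c = y := by
  have h1 : IsIntegral F y := by
    refine ⟨X ^ n - C 1, monic_X_pow_sub_C 1 hn.ne', ?_⟩
    simp [hy]
  exact minpoly.mem_range_of_degree_eq_one F y
    (IsAlgClosed.degree_eq_one_of_irreducible F (minpoly.irreducible h1))

/-- an intermediate field with the finiteness property is a function field -/
theorem isFF_of_span {F K : Type} [Field F] [Field K] [Algebra F K] (x : K)
    (hx : Transcendental F x) (N : IntermediateField F K) (hxN : x ∈ N) (b : Finset K)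
    (hb : ∀ z ∈ N, z ∈ Submodule.span (IntermediateField.adjoin F {x}) (b : Set K)) :
    IsFF F N := by
  classical
  let xN : N := ⟨x, hxN⟩
  have htr : Transcendental F xN := by
    rw [← transcendental_algebraMap_iff (R := F) (S := N) (A := K) (algebraMap N K).injective]
    exact hx
  have hlift : ∀ z : K, z ∈ IntermediateField.adjoin F {x} →
      ∃ z' ∈ IntermediateField.adjoin F {xN}, ((z' : N) : K) = z := by
    intro z hz
    rw [IntermediateField.mem_adjoin_simple_iff] at hz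
    obtain ⟨P, Q, rfl⟩ := hz
    refine ⟨aeval xN P / aeval xN Q, ?_, ?_⟩
    · rw [IntermediateField.mem_adjoin_simple_iff]
      exact ⟨P, Q, rfl⟩
    · have h1 : ∀ P : F[X], ((aeval xN P : N) : K) = aeval x P := by
        intro P
        have := aeval_algebraMap_apply K xN P
        exact this.symm
      push_cast
      rw [h1, h1]
  have hfin : FiniteDimensional (IntermediateField.adjoin F {xN}) N := by
    have hrank : Module.rank (IntermediateField.adjoin F {xN}) N ≤ b.card := by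
      apply rank_le
      intro s hs
      have hli : LinearIndependent (IntermediateField.adjoin F {x})
          (fun i : s => ((i : N) : K)) := by
        rw [Fintype.linearIndependent_iff] at hs ⊢
        intro g hg i
        choose g' hg'1 hg'2 using fun i => hlift (g i : K) (g i).2
        have h2 := hs (fun i => ⟨g' i, hg'1 i⟩) (by
          apply (algebraMap N K).injective
          rw [map_zero, ← hg, map_sum]
          refine Finset.sum_congr rfl fun i _ => ?_
          rw [Algebra.smul_def, Algebra.smul_def, map_mul]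
          change ((g' i : N) : K) * _ = (g i : K) * _
          rw [hg'2 i]
          rfl) i
        have h3 := congrArg Subtype.val h2
        change g' i = 0 at h3
        apply Subtype.ext
        change (g i : K) = 0
        rw [← hg'2 i, h3]
        rfl
      have h2 := linearIndependent_le_span' _ hli (b : Set K) (by
        rintro _ ⟨i, rfl⟩
        exact hb _ (i : N).2)
      simpa using h2
    exact Module.rank_lt_aleph0_iff.1 (hrank.trans_lt (Cardinal.natCast_lt_aleph0))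
  exact IsFF.of_finite htr hfin

theorem clf : S_CLF1 → S_CLF := by
  classical
  intro hCLF1 ℓ q _ F K _ _ _ _ p _ _ a ha hq hℓp htor x hx N hxN hb hsep Φ hconst hΦx hN horb
  obtain ⟨b, hb⟩ := hb
  have hp := (Fact.out : p.Prime)
  have hℓ := (Fact.out : ℓ.Prime)
  have hq1 : 1 < q := by
    rw [hq]; exact Nat.one_lt_pow ha.ne' hp.one_lt
  have hFF : IsFF F N := isFF_of_span x hx N hxN b hb
  -- the finite field
  let k0 : Subfield F := RingHom.eqLocusField (iterateFrobenius F p a) (RingHom.id F)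
  have hk0 : ∀ c : F, c ∈ k0 ↔ c ^ q = c := by
    intro c
    change iterateFrobenius F p a c = RingHom.id F c ↔ _
    rw [iterateFrobenius_def, RingHom.id_apply, hq]
  have hk0fin : Finite k0 := by
    have h1 : ((X ^ q - X : F[X]).roots.toFinset : Set F).Finite := Finset.finite_toSet _
    refine (h1.subset ?_).to_subtype
    intro c hc
    have hc' : c ^ q = c := (hk0 c).1 hc
    rw [Finset.mem_coe, Multiset.mem_toFinset,
      mem_roots (FiniteField.X_pow_card_sub_X_ne_zero F hq1)]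
    simp [IsRoot, hc']
  -- the invariant field
  let R0 : Subfield K := N.toSubfield ⊓ RingHom.eqLocusField (Φ : K →+* K) (RingHom.id K)
  have hR0 : ∀ z : K, z ∈ R0 ↔ z ∈ N ∧ Φ z = z := fun z => Iff.rfl
  let i0 : k0 →+* R0 := ((algebraMap F K).comp k0.subtype).codRestrict R0 (by
    intro d
    rw [hR0]
    refine ⟨N.algebraMap_mem _, ?_⟩
    change Φ (algebraMap F K d) = algebraMap F K d
    rw [hconst, (hk0 _).1 d.2])
  letI : Algebra k0 R0 := i0.toAlgebra
  let x0 : R0 := ⟨x, (hR0 x).2 ⟨hxN, hΦx⟩⟩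
  have hDE : DE q Φ x x0 k0 F :=
    { const := hconst
      fix := fun c hc => ⟨⟨c, (hk0 c).2 hc⟩, rfl⟩
      comm := fun d => rfl
      inv := fun r => ((hR0 _).1 r.2).2
      hx := rfl
      trans := hx }
  obtain ⟨C, hC⟩ := hCLF1 ℓ k0 R0 x0 hDE.trans0
    (hDE.finite hq b (fun r => hb _ ((hR0 _).1 r.2).1))
    (hDE.separable hq (fun r => hsep _ ((hR0 _).1 r.2).1))
  -- the restriction of Φ
  let ΦN : N ≃+* N :=
    { toFun := fun z => ⟨Φ z, (hN z).2 z.2⟩
      invFun := fun z => ⟨Φ.symm z, (hN _).1 (by rw [RingEquiv.apply_symm_apply]; exact z.2)⟩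
      left_inv := fun z => Subtype.ext (Φ.symm_apply_apply _)
      right_inv := fun z => Subtype.ext (Φ.apply_symm_apply _)
      map_mul' := fun z z' => Subtype.ext (map_mul Φ _ _)
      map_add' := fun z z' => Subtype.ext (map_add Φ _ _) }
  have hΦN : ∀ (i : ℕ) (z : N), (((ΦN ^ i) z : N) : K) = (Φ ^ i) (z : K) := by
    intro i z
    induction i with
    | zero => simp
    | succ i ih =>
      rw [pow_succ', pow_succ', RingAut.mul_apply, RingAut.mul_apply, ← ih]
      rfl
  let j : R0 →+* N := R0.subtype.codRestrict N.toSubfield.toSubring (fun r => ((hR0 _).1 r.2).1)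
  have hj : ∀ r : R0, ((j r : N) : K) = r := fun r => rfl
  refine ⟨C, fun T hT hTC => ?_⟩
  -- common exponent
  have hstep : ∀ (h : K) (n m : ℕ), n ≤ m →
      (∃ hn : h ^ (ℓ ^ n) ∈ N, ∀ w : Place F N, ((ℓ : ℤ) ^ n) ∣ w.ord ⟨_, hn⟩) →
      (∃ hn : h ^ (ℓ ^ m) ∈ N, ∀ w : Place F N, ((ℓ : ℤ) ^ m) ∣ w.ord ⟨_, hn⟩) := by
    intro h n m hnm
    induction m, hnm using Nat.le_induction with
    | base => exact id
    | succ m hm ih =>
      intro h1
      obtain ⟨h2, h3⟩ := ih h1
      have h4 : h ^ (ℓ ^ (m + 1)) = (h ^ (ℓ ^ m)) ^ ℓ := by rw [← pow_mul, ← pow_succ]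
      refine ⟨by rw [h4]; exact pow_mem h2 _, fun w => ?_⟩
      have h5 : (⟨h ^ (ℓ ^ (m + 1)), by rw [h4]; exact pow_mem h2 _⟩ : N) =
          (⟨h ^ (ℓ ^ m), h2⟩ : N) ^ ℓ := Subtype.ext h4
      rw [h5, w.ord_pow, pow_succ, mul_comm]
      exact mul_dvd_mul_left _ (h3 w)
  have hex : ∀ h : K, ∃ n : ℕ, h ∈ T →
      ∃ hn : h ^ (ℓ ^ n) ∈ N, ∀ w : Place F N, ((ℓ : ℤ) ^ n) ∣ w.ord ⟨_, hn⟩ := by
    intro h
    by_cases hh : h ∈ T
    · obtain ⟨n, hn⟩ := (hT h hh).2.1
      exact ⟨n, fun _ => hn⟩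
    · exact ⟨0, fun h0 => absurd h0 hh⟩
  choose nn hnn using hex
  let n := T.sup nn
  have hTn : ∀ h ∈ T, ∃ hn : h ^ (ℓ ^ n) ∈ N, ∀ w : Place F N, ((ℓ : ℤ) ^ n) ∣ w.ord ⟨_, hn⟩ :=
    fun h hh => hstep h (nn h) n (Finset.le_sup hh) (hnn h hh)
  -- Hilbert 90
  have hex2 : ∀ h : K, ∃ t : K, h ∈ T → t ≠ 0 ∧ Φ t = t ∧ h * t ∈ N := by
    intro h
    by_cases hh : h ∈ T
    · obtain ⟨t, ht⟩ := hilbert p ha hq N Φ hconst hN horb (hT h hh).1 (hT h hh).2.2
      exact ⟨t, fun _ => ht⟩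
    · exact ⟨0, fun h0 => absurd h0 hh⟩
  choose t ht using hex2
  have hL : 0 < ℓ ^ n := pow_pos hℓ.pos n
  have htN : ∀ h ∈ T, (t h) ^ (ℓ ^ n) ∈ N := by
    intro h hh
    obtain ⟨h1, h2, h3⟩ := ht h hh
    obtain ⟨h4, -⟩ := hTn h hh
    have h5 : (t h) ^ (ℓ ^ n) = (h * t h) ^ (ℓ ^ n) / h ^ (ℓ ^ n) := by
      rw [mul_pow, mul_div_cancel_left₀ _ (pow_ne_zero _ (hT h hh).1)]
    rw [h5]
    exact div_mem (pow_mem h3 _) h4
  have htR : ∀ h ∈ T, (t h) ^ (ℓ ^ n) ∈ R0 := by
    intro h hh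
    rw [hR0]
    exact ⟨htN h hh, by rw [map_pow, (ht h hh).2.1]⟩
  -- classes from equality up to powers
  have hcls : ∀ h ∈ T, ∀ h' ∈ T, ∀ g : K, g ∈ R0 →
      (t h) ^ (ℓ ^ n) = (t h') ^ (ℓ ^ n) * g ^ (ℓ ^ n) → h / h' ∈ N := by
    intro h hh h' hh' g hg heq
    obtain ⟨h1, -, h3⟩ := ht h hh
    obtain ⟨h1', -, h3'⟩ := ht h' hh'
    have hg0 : g ≠ 0 := by
      rintro rfl
      rw [zero_pow hL.ne', mul_zero] at heq
      exact pow_ne_zero _ h1 heq
    have h6 : (t h / (t h' * g)) ^ (ℓ ^ n) = 1 := by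
      rw [div_pow, mul_pow, heq, div_self]
      exact mul_ne_zero (pow_ne_zero _ h1') (pow_ne_zero _ hg0)
    obtain ⟨c, hc⟩ := root_const (F := F) hL h6
    have h7 : t h / t h' ∈ N := by
      have h8 : t h / t h' = algebraMap F K c * g := by
        rw [hc]; field_simp
      rw [h8]
      exact mul_mem (N.algebraMap_mem _) ((hR0 _).1 hg).1
    have h9 : h / h' = (h * t h) / (h' * t h') / (t h / t h') := by
      have := (hT h' hh').1
      field_simp
    rw [h9]
    exact div_mem (div_mem h3 h3') h7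
  let H : T → R0 := fun h => ⟨(t h) ^ (ℓ ^ n), htR h h.2⟩
  by_cases hinj : Function.Injective H
  · let T' : Finset R0 := Finset.univ.image H
    have hT'c : T'.card = T.card := by
      rw [Finset.card_image_of_injective _ hinj]
      simp
    obtain ⟨H1, hH1, H2, hH2, hne, g, hg⟩ := hC n T' (by
      intro r hr
      obtain ⟨⟨h, hh⟩, -, rfl⟩ := Finset.mem_image.1 hr
      obtain ⟨h1, h2, h3⟩ := ht h hh
      have hr0 : H ⟨h, hh⟩ ≠ 0 := by
        intro h0
        have := congrArg Subtype.val h0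
        exact pow_ne_zero _ h1 this
      refine ⟨hr0, fun w0 => ?_⟩
      refine dvd_ord p ha hq htor ΦN j ?_ ?_ ?_ ?_ (H ⟨h, hh⟩) hr0 _ ?_ w0
      · intro c
        apply Subtype.ext
        exact hconst c
      · intro r
        apply Subtype.ext
        exact ((hR0 _).1 r.2).2
      · intro z hz
        exact ⟨⟨z, (hR0 _).2 ⟨z.2, congrArg Subtype.val hz⟩⟩, rfl⟩
      · intro z
        obtain ⟨m, hm, h4⟩ := horb z
        exact ⟨m, hm, Subtype.ext (by rw [hΦN]; exact h4)⟩
      · intro w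
        obtain ⟨h4, h5⟩ := hTn h hh
        have h6 : j (H ⟨h, hh⟩) = (⟨h * t h, h3⟩ : N) ^ (ℓ ^ n) / ⟨h ^ (ℓ ^ n), h4⟩ := by
          apply Subtype.ext
          change (t h) ^ (ℓ ^ n) = (h * t h) ^ (ℓ ^ n) / h ^ (ℓ ^ n)
          rw [mul_pow, mul_div_cancel_left₀ _ (pow_ne_zero _ (hT h hh).1)]
        have h7 : (⟨h * t h, h3⟩ : N) ≠ 0 := by
          intro h0
          exact mul_ne_zero (hT h hh).1 h1 (congrArg Subtype.val h0)
        have h8 : (⟨h ^ (ℓ ^ n), h4⟩ : N) ≠ 0 := by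
          intro h0
          exact pow_ne_zero _ (hT h hh).1 (congrArg Subtype.val h0)
        rw [h6, w.ord_div (pow_ne_zero _ h7) h8, w.ord_pow]
        refine dvd_sub ?_ (h5 w)
        push_cast
        exact dvd_mul_right _ _) (by rw [hT'c]; exact hTC)
    obtain ⟨⟨h, hh⟩, -, rfl⟩ := Finset.mem_image.1 hH1
    obtain ⟨⟨h', hh'⟩, -, rfl⟩ := Finset.mem_image.1 hH2
    refine ⟨h, hh, h', hh', ?_, ?_⟩
    · rintro rfl
      exact hne rfl
    · exact hcls h hh h' hh' g g.2 (congrArg Subtype.val hg)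
  · rw [Function.Injective] at hinj
    push Not at hinj
    obtain ⟨⟨h, hh⟩, ⟨h', hh'⟩, heq, hne⟩ := hinj
    refine ⟨h, hh, h', hh', fun h0 => hne (Subtype.ext h0), ?_⟩
    refine hcls h hh h' hh' 1 (one_mem _) ?_
    rw [one_pow, mul_one]
    exact congrArg Subtype.val heq

end Pool.Agent.Y732.PS
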