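import Pool.Agent.H525R3.FFp.Bridge

/-!
# PS-CLF (1): constant field extensions are unramified, elementary proof

(helper732, project PS of helper157.)
-/

set_option autoImplicit false
set_option linter.all false

open Polynomial FF

namespace Pool.Agent.Y732.PS

/-- a linearised polynomial has a nonzero value on the elements with `c ^ (q ^ m) = c` -/
theorem exists_lin_ne {F RF : Type*} [Field F] [IsAlgClosed F] [Field RF] [Algebra F RF]
    (p : ℕ) [Fact p.Prime] [CharP F p] {q a m : ℕ} (ha : 0 < a) (hq : q = p ^ a)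
    (b : ℕ → RF) {i0 : ℕ} (hi0 : i0 < m) (hb : b i0 ≠ 0) :
    ∃ c : F, c ^ (q ^ m) = c ∧
      ∑ i ∈ Finset.range m, b i * algebraMap F RF (c ^ (q ^ i)) ≠ 0 := by
  classical
  have hp := (Fact.out : p.Prime)
  have hq2 : 2 ≤ q := by
    rw [hq]
    calc 2 ≤ p := hp.two_le
      _ = p ^ 1 := (pow_one p).symm
      _ ≤ p ^ a := Nat.pow_le_pow_right hp.pos ha
  have hq1 : 1 < q := hq2
  by_contra hc
  push Not at hc
  let f : RF[X] := ∑ i ∈ Finset.range m, C (b i) * X ^ (q ^ i)
  have hf0 : f ≠ 0 := by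
    intro h0
    have h1 : f.coeff (q ^ i0) = b i0 := by
      simp only [f, finset_sum_coeff, coeff_C_mul, coeff_X_pow]
      rw [Finset.sum_eq_single i0]
      · simp
      · intro j _ hj
        have : ¬ q ^ i0 = q ^ j := fun h => hj (Nat.pow_right_injective hq2 h).symm
        simp [this]
      · intro h
        exact absurd (Finset.mem_range.2 hi0) h
    rw [h0, coeff_zero] at h1
    exact hb h1.symm
  have hdeg : f.natDegree ≤ q ^ (m - 1) := by
    apply natDegree_sum_le_of_forall_le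
    intro i hi
    refine (natDegree_C_mul_X_pow_le _ _).trans ?_
    apply Nat.pow_le_pow_right (by omega)
    have := Finset.mem_range.1 hi
    omega
  have hm : 0 < m := by omega
  have hqm : 1 < q ^ m := Nat.one_lt_pow hm.ne' hq1
  let g : F[X] := X ^ (q ^ m) - X
  have hg0 : g ≠ 0 := FiniteField.X_pow_card_sub_X_ne_zero F hqm
  have hgs : g.Separable := by
    apply galois_poly_separable p
    rw [hq, ← pow_mul]
    exact dvd_pow_self p (by positivity)
  have hgc : g.roots.toFinset.card = q ^ m := by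
    rw [Multiset.toFinset_card_of_nodup (nodup_roots hgs)]
    rw [← (IsAlgClosed.splits g).natDegree_eq_card_roots]
    exact FiniteField.X_pow_card_sub_X_natDegree_eq F hqm
  let S : Finset RF := g.roots.toFinset.image (algebraMap F RF)
  have hS : S.card = q ^ m := by
    rw [Finset.card_image_of_injective _ (algebraMap F RF).injective, hgc]
  have hSf : S ⊆ f.roots.toFinset := by
    intro y hy
    obtain ⟨c, hc1, rfl⟩ := Finset.mem_image.1 hy
    have hc2 : c ^ (q ^ m) = c := by
      have := (mem_roots hg0).1 (Multiset.mem_toFinset.1 hc1)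
      simpa [g, IsRoot, sub_eq_zero] using this
    rw [Multiset.mem_toFinset, mem_roots hf0]
    have h3 := hc c hc2
    simp only [f, IsRoot, eval_finset_sum, eval_mul, eval_C, eval_pow, eval_X]
    simpa [map_pow] using h3
  have h4 := Finset.card_le_card hSf
  have h5 := (Multiset.toFinset_card_le f.roots).trans (card_roots' f)
  have h6 : q ^ (m - 1) < q ^ m := Nat.pow_lt_pow_right hq1 (by omega)
  omega

/-- in an algebraically closed field in which every element satisfies `c ^ (q ^ m) = c` for some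
`m`, this holds with a common `m` for finitely many elements -/
theorem pow_orbit {F : Type*} [Field F] {q : ℕ} {c : F} {m : ℕ} (h : c ^ (q ^ m) = c) (n : ℕ) :
    c ^ (q ^ (m * n)) = c := by
  induction n with
  | zero => simp
  | succ n ih => rw [Nat.mul_succ, pow_add, pow_mul, ih, h]

section place

variable {k R F N : Type} [Field k] [Field R] [Field F] [Field N] [Algebra k R] [Algebra F N]

/-- the iterates of `Φ` on constants -/
theorem iter_const {q : ℕ} {Φ : N ≃+* N}
    (hΦ : ∀ c : F, Φ (algebraMap F N c) = algebraMap F N (c ^ q)) (i : ℕ) (c : F) :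
    (Φ ^ i) (algebraMap F N c) = algebraMap F N (c ^ (q ^ i)) := by
  induction i with
  | zero => simp
  | succ i ih =>
    rw [pow_succ', RingAut.mul_apply, ih, hΦ, ← pow_mul, ← pow_succ]

theorem iter_mod {Φ : N ≃+* N} {z : N} {m : ℕ} (h : (Φ ^ m) z = z) (i : ℕ) :
    (Φ ^ i) z = (Φ ^ (i % m)) z := by
  have h1 : ∀ n : ℕ, (Φ ^ (m * n)) z = z := by
    intro n
    induction n with
    | zero => simp
    | succ n ih => rw [Nat.mul_succ, pow_add, RingAut.mul_apply, h, ih]
  conv_lhs => rw [← Nat.mod_add_div i m, pow_add, RingAut.mul_apply, h1]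

theorem iter_ne {Φ : N ≃+* N} {z : N} (hz : z ≠ 0) (i : ℕ) : (Φ ^ i) z ≠ 0 := by
  rwa [Ne, EmbeddingLike.map_eq_zero_iff]

variable (w : Place F N) (Φ : N ≃+* N) (j : R →+* N)

/-- the least order in an orbit is the order of an invariant element -/
theorem exists_min [IsAlgClosed F] (p : ℕ) [Fact p.Prime] [CharP F p] {q a : ℕ} (ha : 0 < a)
    (hq : q = p ^ a) (hΦ : ∀ c : F, Φ (algebraMap F N c) = algebraMap F N (c ^ q))
    (hfix : ∀ z, Φ z = z → ∃ r, j r = z) (horb : ∀ z : N, ∃ m : ℕ, 0 < m ∧ (Φ ^ m) z = z)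
    {z : N} (hz : z ≠ 0) :
    ∃ i0 : ℕ, (∀ i, w.ord ((Φ ^ i0) z) ≤ w.ord ((Φ ^ i) z)) ∧
      ∃ r : R, r ≠ 0 ∧ w.ord (j r) = w.ord ((Φ ^ i0) z) := by
  classical
  obtain ⟨m, hm, hmz⟩ := horb z
  obtain ⟨i0, hi0, hmin⟩ := Finset.exists_min_image (Finset.range m)
    (fun i => w.ord ((Φ ^ i) z)) ⟨0, Finset.mem_range.2 hm⟩
  have hmin' : ∀ i, w.ord ((Φ ^ i0) z) ≤ w.ord ((Φ ^ i) z) := by
    intro i
    rw [iter_mod hmz i]
    exact hmin _ (Finset.mem_range.2 (Nat.mod_lt _ hm))
  refine ⟨i0, hmin', ?_⟩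
  have hz0 : (Φ ^ i0) z ≠ 0 := iter_ne hz i0
  let u : ℕ → N := fun i => (Φ ^ i) z / (Φ ^ i0) z
  have hu : ∀ i, w.Reg (u i) := by
    intro i
    have : u i ≠ 0 := div_ne_zero (iter_ne hz i) hz0
    rw [w.reg_iff this]
    change 0 ≤ w.ord ((Φ ^ i) z / (Φ ^ i0) z)
    rw [w.ord_div (iter_ne hz i) hz0]
    have := hmin' i
    omega
  have hb : w.red (u i0) ≠ 0 := by
    have : u i0 = 1 := div_self hz0
    rw [this, w.red_one]
    exact one_ne_zero
  obtain ⟨c, hc, hsum⟩ := exists_lin_ne (F := F) (RF := w.RF) p ha hq (fun i => w.red (u i))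
    (Finset.mem_range.1 hi0) hb
  let U : w.O := ∑ i ∈ Finset.range m,
    (⟨u i, hu i⟩ : w.O) * ⟨algebraMap F N (c ^ (q ^ i)), w.reg_const _⟩
  have hUr : w.resHom U ≠ 0 := by
    simp only [U, map_sum, map_mul]
    convert hsum using 1
    refine Finset.sum_congr rfl fun i _ => ?_
    rw [← w.red_of_reg (hu i), w.algebraMap_RF, w.red_of_reg (w.reg_const _)]
  have hUv : (U : N) = ∑ i ∈ Finset.range m, u i * algebraMap F N (c ^ (q ^ i)) := by
    simp only [U]
    rw [show ((∑ i ∈ Finset.range m, (⟨u i, hu i⟩ : w.O) *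
      ⟨algebraMap F N (c ^ (q ^ i)), w.reg_const _⟩ : w.O) : N) = w.O.subtype
      (∑ i ∈ Finset.range m, (⟨u i, hu i⟩ : w.O) * ⟨algebraMap F N (c ^ (q ^ i)), w.reg_const _⟩)
      from rfl, map_sum]
    rfl
  have hU1 : w.red (U : N) ≠ 0 := by
    rw [w.red_of_reg U.2]; exact hUr
  rw [Ne, w.red_eq_zero_iff U.2] at hU1
  push Not at hU1
  have hU2 : w.ord (U : N) = 0 := le_antisymm hU1.2 ((w.reg_iff hU1.1).1 U.2)
  let S : N := ∑ i ∈ Finset.range m, (Φ ^ i) (algebraMap F N c * z)
  have hS : S = (Φ ^ i0) z * U := by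
    rw [hUv, Finset.mul_sum]
    refine Finset.sum_congr rfl fun i _ => ?_
    rw [map_mul, iter_const hΦ]
    simp only [u]
    field_simp
  have hΦS : Φ S = S := by
    have hcz : (Φ ^ m) (algebraMap F N c * z) = algebraMap F N c * z := by
      rw [map_mul, iter_const hΦ, hc, hmz]
    simp only [S, map_sum]
    have h1 : ∀ i, Φ ((Φ ^ i) (algebraMap F N c * z)) = (Φ ^ (i + 1)) (algebraMap F N c * z) := by
      intro i
      rw [pow_succ', RingAut.mul_apply]
    simp only [h1]
    have h2 := Finset.sum_range_succ' (fun i => (Φ ^ i) (algebraMap F N c * z)) m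
    have h3 := Finset.sum_range_succ (fun i => (Φ ^ i) (algebraMap F N c * z)) m
    rw [h3, hcz] at h2
    simp only [pow_zero, RingAut.one_apply] at h2
    exact (add_right_cancel h2).symm
  obtain ⟨r, hr⟩ := hfix S hΦS
  have hS0 : S ≠ 0 := by rw [hS]; exact mul_ne_zero hz0 hU1.1
  refine ⟨r, ?_, ?_⟩
  · rintro rfl
    rw [map_zero] at hr
    exact hS0 hr.symm
  · rw [hr, hS, w.ord_mul hz0 hU1.1, hU2, add_zero]

end place

end Pool.Agent.Y732.PS
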