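import Pool.Agent.Y732.PS.CLFa

/-!
# PS-CLF (2): the ramification index is one

(helper732, project PS of helper157.)
-/

set_option autoImplicit false
set_option linter.all false

open Polynomial FF

namespace Pool.Agent.Y732.PS

variable {k R F N : Type} [Field k] [Field R] [Field F] [Field N] [Algebra k R] [Algebra F N]

/-- the setting for the comparison of the places of `R` and of `N = R F` -/
structure CE (q : ℕ) (Φ : N ≃+* N) (j : R →+* N) (w : Place F N) (w0 : Place k R) (e : ℤ) :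
    Prop where
  const : ∀ c : F, Φ (algebraMap F N c) = algebraMap F N (c ^ q)
  inv : ∀ r, Φ (j r) = j r
  fix : ∀ z, Φ z = z → ∃ r, j r = z
  orb : ∀ z : N, ∃ m : ℕ, 0 < m ∧ (Φ ^ m) z = z
  epos : 0 < e
  res : ∀ r : R, r ≠ 0 → w.ord (j r) = e * w0.ord r
  alg : ∀ u : N, w.Reg u → ∃ c : F, w.red u = w.red (algebraMap F N c)
  tor : ∀ c : F, ∃ m : ℕ, 0 < m ∧ c ^ (q ^ m) = c

variable {q : ℕ} {Φ : N ≃+* N} {j : R →+* N} {w : Place F N} {w0 : Place k R} {e : ℤ}

theorem CE.iter_j (h : CE q Φ j w w0 e) (r : R) (i : ℕ) : (Φ ^ i) (j r) = j r := by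
  induction i with
  | zero => simp
  | succ i ih => rw [pow_succ', RingAut.mul_apply, ih, h.inv]

/-- a common power for an orbit of regular elements -/
theorem CE.exists_pow (h : CE q Φ j w w0 e) (hq : 1 < q) {z : N} (hz : z ≠ 0)
    (hr : ∀ i, 0 ≤ w.ord ((Φ ^ i) z)) :
    ∃ Q : ℕ, 2 ≤ Q ∧ (∃ M, Q = q ^ M) ∧ ∀ i, w.red (((Φ ^ i) z) ^ Q - (Φ ^ i) z) = 0 := by
  classical
  obtain ⟨m, hm, hmz⟩ := h.orb z
  have hreg : ∀ i, w.Reg ((Φ ^ i) z) := fun i => Or.inr (hr i)
  choose c hc using fun i => h.alg _ (hreg i)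
  choose M hM0 hM using fun i => h.tor (c i)
  let MM : ℕ := ∏ i ∈ Finset.range m, M i
  have hMM : 0 < MM := Finset.prod_pos fun i _ => hM0 i
  refine ⟨q ^ MM, ?_, ⟨MM, rfl⟩, ?_⟩
  · exact Nat.one_lt_pow hMM.ne' hq
  · intro i
    rw [iter_mod hmz i]
    have hi : i % m ∈ Finset.range m := Finset.mem_range.2 (Nat.mod_lt _ hm)
    obtain ⟨t, ht⟩ : M (i % m) ∣ MM := Finset.dvd_prod_of_mem _ hi
    have h1 : (c (i % m)) ^ (q ^ MM) = c (i % m) := by
      rw [ht]; exact pow_orbit (hM _) t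
    have hp : w.Reg (((Φ ^ (i % m)) z) ^ (q ^ MM)) := by
      by_cases h0 : ((Φ ^ (i % m)) z) ^ (q ^ MM) = 0
      · exact Or.inl h0
      · right
        rw [w.ord_pow]
        exact mul_nonneg (by positivity) (hr _)
    have hcr : w.Reg (algebraMap F N (c (i % m))) := w.reg_const _
    rw [w.red_sub hp (hreg _), w.red_pow (hreg _), hc, ← w.red_pow hcr, ← map_pow, h1, sub_self]

theorem CE.desc [IsAlgClosed F] (h : CE q Φ j w w0 e) (p : ℕ) [Fact p.Prime] [CharP F p] {a : ℕ}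
    (ha : 0 < a) (hq : q = p ^ a) (he : 2 ≤ e) :
    ∀ (A : ℕ) (z : N), z ≠ 0 → (∀ i, 0 ≤ w.ord ((Φ ^ i) z)) → w.ord z = A → 0 < A →
      (A : ℤ) % e = 1 → False := by
  have hp := (Fact.out : p.Prime)
  have hq1 : 1 < q := by
    rw [hq]; exact Nat.one_lt_pow ha.ne' hp.one_lt
  intro A
  induction A using Nat.strong_induction_on with
  | _ A ih =>
    intro z hz hr hA hA0 hmod
    obtain ⟨Q, hQ2, ⟨M, hQM⟩, hQ⟩ := h.exists_pow hq1 hz hr
    have hp1 : w.ord (z ^ (Q - 1) - 1) = 0 ∧ z ^ (Q - 1) - 1 ≠ 0 := by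
      have h1 : w.ord (z ^ (Q - 1)) = ((Q - 1 : ℕ) : ℤ) * A := by rw [w.ord_pow, hA]
      have h2 : 0 < w.ord (z ^ (Q - 1)) := by
        rw [h1]
        have : 0 < Q - 1 := by omega
        positivity
      have h3 := w.ord_add_eq (f := -1) (g := z ^ (Q - 1)) (by simp) (pow_ne_zero _ hz)
        (by rw [w.ord_neg, w.ord_one]; exact h2)
      rw [w.ord_neg, w.ord_one] at h3
      rw [sub_eq_add_neg, add_comm]
      exact ⟨h3.2, h3.1⟩
    let y : N := z ^ Q - z
    have hy : y = z * (z ^ (Q - 1) - 1) := by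
      have : z ^ Q = z * z ^ (Q - 1) := by
        rw [← pow_succ']; congr 1; omega
      simp only [y]; rw [this]; ring
    have hy0 : y ≠ 0 := by rw [hy]; exact mul_ne_zero hz hp1.2
    have hyo : w.ord y = A := by rw [hy, w.ord_mul hz hp1.2, hp1.1, hA, add_zero]
    have hyi : ∀ i, 1 ≤ w.ord ((Φ ^ i) y) := by
      intro i
      have h1 : (Φ ^ i) y = ((Φ ^ i) z) ^ Q - (Φ ^ i) z := by
        simp only [y, map_sub, map_pow]
      have h2 := hQ i
      rw [← h1] at h2
      have hyr : w.Reg ((Φ ^ i) y) := by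
        rw [h1, sub_eq_add_neg]
        refine w.reg_add ?_ (w.reg_neg (Or.inr (hr i)))
        by_cases h0 : ((Φ ^ i) z) ^ Q = 0
        · exact Or.inl h0
        · right
          rw [w.ord_pow]
          exact mul_nonneg (by positivity) (hr _)
      rw [w.red_eq_zero_iff hyr] at h2
      rcases h2 with h2 | h2
      · exact absurd h2 (iter_ne hy0 i)
      · omega
    obtain ⟨i0, hi0, r, hr0, hrr⟩ := exists_min w Φ j p ha hq h.const h.fix h.orb hy0
    have hdiv : e ∣ w.ord ((Φ ^ i0) y) := ⟨w0.ord r, by rw [← hrr, h.res r hr0]⟩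
    have hge : e ≤ w.ord ((Φ ^ i0) y) := Int.le_of_dvd (by have := hyi i0; omega) hdiv
    obtain ⟨t, ht0, ht⟩ := w0.surj
    have hjt0 : j t ≠ 0 := by rwa [Ne, map_eq_zero]
    have hjt : w.ord (j t) = e := by rw [h.res t ht0, ht, mul_one]
    have hA1 : e ≤ (A : ℤ) := by
      have := hi0 0
      simp only [pow_zero, RingAut.one_apply] at this
      rw [hyo] at this
      omega
    have hAe : (A : ℤ) ≠ e := by
      intro h0
      rw [h0, Int.emod_self] at hmod
      omega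
    have hlt : e < (A : ℤ) := lt_of_le_of_ne hA1 (Ne.symm hAe)
    refine ih (A - e.toNat) ?_ (y / j t) (div_ne_zero hy0 hjt0) ?_ ?_ ?_ ?_
    · omega
    · intro i
      rw [map_div₀, h.iter_j, w.ord_div (iter_ne hy0 i) hjt0, hjt]
      have := hi0 i
      omega
    · rw [w.ord_div hy0 hjt0, hjt, hyo]
      omega
    · omega
    · have : ((A - e.toNat : ℕ) : ℤ) = A - e := by omega
      rw [this, Int.sub_emod_right]
      exact hmod

/-- **constant field extensions are unramified** -/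
theorem CE.e_eq_one [IsAlgClosed F] (h : CE q Φ j w w0 e) (p : ℕ) [Fact p.Prime] [CharP F p]
    {a : ℕ} (ha : 0 < a) (hq : q = p ^ a) : e = 1 := by
  classical
  by_contra hne
  have he : 2 ≤ e := by have := h.epos; omega
  obtain ⟨s, hs0, hs⟩ := w.surj
  obtain ⟨m, hm, hms⟩ := h.orb s
  obtain ⟨t, ht0, ht⟩ := w0.surj
  have hjt0 : j t ≠ 0 := by rwa [Ne, map_eq_zero]
  have hjt : w.ord (j t) = e := by rw [h.res t ht0, ht, mul_one]
  let B : ℕ := ∑ i ∈ Finset.range m, (w.ord ((Φ ^ i) s)).natAbs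
  have hB : ∀ i, 0 ≤ w.ord ((Φ ^ i) s) + B := by
    intro i
    rw [iter_mod hms i]
    have h1 := Finset.single_le_sum (f := fun i => (w.ord ((Φ ^ i) s)).natAbs)
      (fun i _ => Nat.zero_le _) (Finset.mem_range.2 (Nat.mod_lt i hm))
    have h2 : (w.ord ((Φ ^ (i % m)) s)).natAbs ≤ B := h1
    omega
  have hord : ∀ i, w.ord ((Φ ^ i) (s * (j t) ^ B)) = w.ord ((Φ ^ i) s) + B * e := by
    intro i
    rw [map_mul, map_pow, h.iter_j, w.ord_mul (iter_ne hs0 i) (pow_ne_zero _ hjt0), w.ord_pow, hjt]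
  have hBe : (B : ℤ) ≤ B * e := by nlinarith
  have h0 := hord 0
  simp only [pow_zero, RingAut.one_apply] at h0
  rw [hs] at h0
  refine h.desc p ha hq he (1 + B * e).toNat (s * (j t) ^ B)
    (mul_ne_zero hs0 (pow_ne_zero _ hjt0)) ?_ ?_ ?_ ?_
  · intro i
    rw [hord]
    have := hB i
    omega
  · rw [h0]
    have : (0 : ℤ) ≤ 1 + B * e := by positivity
    omega
  · have : (0 : ℤ) < 1 + B * e := by positivity
    omega
  · have h1 : (((1 + B * e).toNat : ℕ) : ℤ) = 1 + B * e := by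
      have : (0 : ℤ) ≤ 1 + B * e := by positivity
      omega
    rw [h1, Int.add_mul_emod_self_right]
    exact Int.emod_eq_of_lt (by norm_num) (by omega)

end Pool.Agent.Y732.PS
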