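import Mathlib

/-!
# PS-CLF (3): descent of the rational function field, finiteness and separability

(helper732, project PS of helper157.)
-/

set_option autoImplicit false
set_option linter.all false

open Polynomial

namespace Pool.Agent.Y732.PS

variable {k R F K : Type} [Field k] [Field R] [Field F] [Field K] [Algebra k F] [Algebra k R]
  [Algebra F K] [Algebra R K]

/-- the descent setting -/
structure DE (q : ℕ) (Φ : K ≃+* K) (x : K) (x0 : R) (k F : Type) [Field k] [Field F]
    [Algebra k F] [Algebra k R] [Algebra F K] : Prop where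
  const : ∀ c : F, Φ (algebraMap F K c) = algebraMap F K (c ^ q)
  fix : ∀ c : F, c ^ q = c → ∃ d : k, algebraMap k F d = c
  comm : ∀ d : k, algebraMap R K (algebraMap k R d) = algebraMap F K (algebraMap k F d)
  inv : ∀ r : R, Φ (algebraMap R K r) = algebraMap R K r
  hx : algebraMap R K x0 = x
  trans : Transcendental F x

variable {q : ℕ} {Φ : K ≃+* K} {x : K} {x0 : R}

theorem DE.aeval_map (h : DE q Φ x x0 k F) (P : k[X]) :
    algebraMap R K (aeval x0 P) = aeval x (P.map (algebraMap k F)) := by
  rw [aeval_map_algebraMap_aux h P]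
where
  aeval_map_algebraMap_aux {q : ℕ} {Φ : K ≃+* K} {x : K} {x0 : R} (h : DE q Φ x x0 k F)
      (P : k[X]) : algebraMap R K (aeval x0 P) = aeval x (P.map (algebraMap k F)) := by
    induction P using Polynomial.induction_on' with
    | add P Q hP hQ => simp only [map_add, Polynomial.map_add, hP, hQ]
    | monomial n c =>
      rw [aeval_monomial, Polynomial.map_monomial, aeval_monomial, map_mul, map_pow, h.comm, h.hx]

theorem DE.trans0 (h : DE q Φ x x0 k F) : Transcendental k x0 := by
  rw [transcendental_iff]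
  intro P hP
  have h1 : aeval x (P.map (algebraMap k F)) = 0 := by
    rw [← h.aeval_map, hP, map_zero]
  have h2 := (transcendental_iff.1 h.trans) _ h1
  exact (Polynomial.map_eq_zero_iff (algebraMap k F).injective).1 h2

theorem DE.phi_aeval (h : DE q Φ x x0 k F) {p a : ℕ} [Fact p.Prime] [CharP F p]
    (hq : q = p ^ a) (P : F[X]) :
    Φ (aeval x P) = aeval x (P.map (iterateFrobenius F p a)) := by
  have hxx : Φ x = x := by rw [← h.hx]; exact h.inv x0
  induction P using Polynomial.induction_on' with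
  | add P Q hP hQ => simp only [map_add, Polynomial.map_add, hP, hQ]
  | monomial n c =>
    rw [aeval_monomial, Polynomial.map_monomial, aeval_monomial, map_mul, map_pow, hxx, h.const,
      iterateFrobenius_def, hq]

/-- the elements of `F(x)` which are fixed by `Φ` come from `k(x₀)` -/
theorem DE.descend (h : DE q Φ x x0 k F) {p a : ℕ} [Fact p.Prime] [CharP F p]
    (hq : q = p ^ a) {z : K} (hz : z ∈ IntermediateField.adjoin F {x}) (hΦ : Φ z = z) :
    ∃ r ∈ IntermediateField.adjoin k {x0}, algebraMap R K r = z := by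
  classical
  rw [IntermediateField.mem_adjoin_simple_iff] at hz
  obtain ⟨P1, Q1, hPQ⟩ := hz
  by_cases hQ1 : Q1 = 0
  · refine ⟨0, zero_mem _, ?_⟩
    rw [hPQ, hQ1, map_zero, map_zero, div_zero]
  -- coprime, monic
  obtain ⟨P, Q, hcop, hmon, hzPQ⟩ : ∃ P Q : F[X], IsCoprime P Q ∧ Q.Monic ∧
      z = aeval x P / aeval x Q := by
    let d := EuclideanDomain.gcd P1 Q1
    have hd0 : d ≠ 0 := fun h0 => hQ1 (EuclideanDomain.gcd_eq_zero_iff.1 h0).2
    obtain ⟨P2, hP2⟩ := EuclideanDomain.gcd_dvd_left P1 Q1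
    obtain ⟨Q2, hQ2⟩ := EuclideanDomain.gcd_dvd_right P1 Q1
    have hQ20 : Q2 ≠ 0 := by rintro rfl; rw [mul_zero] at hQ2; exact hQ1 hQ2
    have hc : IsCoprime P2 Q2 := by
      have h1 := EuclideanDomain.gcd_eq_gcd_ab P1 Q1
      refine ⟨EuclideanDomain.gcdA P1 Q1, EuclideanDomain.gcdB P1 Q1, ?_⟩
      apply mul_left_cancel₀ hd0
      calc d * (EuclideanDomain.gcdA P1 Q1 * P2 + EuclideanDomain.gcdB P1 Q1 * Q2)
          = (d * P2) * EuclideanDomain.gcdA P1 Q1 + (d * Q2) * EuclideanDomain.gcdB P1 Q1 := by ring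
        _ = P1 * EuclideanDomain.gcdA P1 Q1 + Q1 * EuclideanDomain.gcdB P1 Q1 := by
            rw [← hP2, ← hQ2]
        _ = d * 1 := by rw [← h1, mul_one]
    have hl : Q2.leadingCoeff ≠ 0 := leadingCoeff_ne_zero.2 hQ20
    have hlu : IsUnit (C Q2.leadingCoeff⁻¹ : F[X]) := isUnit_C.2 (inv_ne_zero hl).isUnit
    refine ⟨P2 * C Q2.leadingCoeff⁻¹, Q2 * C Q2.leadingCoeff⁻¹, ?_,
      monic_mul_leadingCoeff_inv hQ20, ?_⟩
    · exact (isCoprime_mul_unit_right hlu P2 Q2).2 hc
    · have hP3 : aeval x P1 = aeval x d * aeval x P2 := by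
        rw [← map_mul]; exact congrArg _ hP2
      have hQ3 : aeval x Q1 = aeval x d * aeval x Q2 := by
        rw [← map_mul]; exact congrArg _ hQ2
      rw [hPQ, hP3, hQ3]
      have hdx : aeval x d ≠ 0 := fun h0 => hd0 ((transcendental_iff.1 h.trans) _ h0)
      have hlx : aeval x (C Q2.leadingCoeff⁻¹ : F[X]) ≠ 0 := by
        rw [aeval_C]; simpa using hl
      rw [map_mul, map_mul, mul_div_mul_left _ _ hdx, mul_div_mul_right _ _ hlx]
  let σ := iterateFrobenius F p a
  have hQ0 : Q ≠ 0 := hmon.ne_zero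
  have hQx : aeval x Q ≠ 0 := fun h0 => hQ0 ((transcendental_iff.1 h.trans) _ h0)
  have hσinj : Function.Injective σ := σ.injective
  have hQσ : Q.map σ ≠ 0 := (Polynomial.map_ne_zero_iff hσinj).2 hQ0
  have hQσx : aeval x (Q.map σ) ≠ 0 := fun h0 => hQσ ((transcendental_iff.1 h.trans) _ h0)
  have h1 : aeval x (P.map σ) / aeval x (Q.map σ) = aeval x P / aeval x Q := by
    rw [← h.phi_aeval hq, ← h.phi_aeval hq, ← map_div₀, ← hzPQ, hΦ]
  rw [div_eq_div_iff hQσx hQx, ← map_mul, ← map_mul] at h1
  have h2 : P.map σ * Q = P * Q.map σ := by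
    have h3 : aeval x (P.map σ * Q - P * Q.map σ) = 0 := by rw [map_sub, h1, sub_self]
    exact sub_eq_zero.1 ((transcendental_iff.1 h.trans) _ h3)
  have h3 : Q ∣ Q.map σ := by
    have h4 : Q ∣ P * Q.map σ := ⟨P.map σ, by rw [← h2]; ring⟩
    exact hcop.symm.dvd_of_dvd_mul_left h4
  have h4 : Q.map σ = Q :=
    (eq_of_monic_of_dvd_of_natDegree_le hmon (hmon.map σ) h3 (by rw [natDegree_map]))
  have h5 : P.map σ = P := by
    rw [h4] at h2
    exact mul_right_cancel₀ hQ0 h2
  have h6 : ∀ G : F[X], G.map σ = G → ∃ G0 : k[X], G0.map (algebraMap k F) = G := by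
    intro G hG
    have h7 : G ∈ lifts (algebraMap k F) := by
      rw [lifts_iff_coeff_lifts]
      intro n
      have h8 : (G.coeff n) ^ q = G.coeff n := by
        have h9 : (G.map σ).coeff n = G.coeff n := by rw [hG]
        rw [coeff_map] at h9
        rw [hq]
        exact h9
      obtain ⟨d, hd⟩ := h.fix _ h8
      exact ⟨d, hd⟩
    exact (mem_lifts _).1 h7
  obtain ⟨P0, hP0⟩ := h6 P h5
  obtain ⟨Q0, hQ0'⟩ := h6 Q h4
  refine ⟨aeval x0 P0 / aeval x0 Q0, ?_, ?_⟩
  · rw [IntermediateField.mem_adjoin_simple_iff]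
    exact ⟨P0, Q0, rfl⟩
  · rw [map_div₀, h.aeval_map, h.aeval_map, hP0, hQ0', hzPQ]

/-- elements of `k(x₀)` lie in `F(x)` -/
theorem DE.mem_adjoin (h : DE q Φ x x0 k F) {r : R} (hr : r ∈ IntermediateField.adjoin k {x0}) :
    algebraMap R K r ∈ IntermediateField.adjoin F {x} := by
  rw [IntermediateField.mem_adjoin_simple_iff] at hr ⊢
  obtain ⟨P, Q, rfl⟩ := hr
  exact ⟨P.map (algebraMap k F), Q.map (algebraMap k F), by
    rw [map_div₀, h.aeval_map, h.aeval_map]⟩

/-- `Φ` preserves `F(x)` -/
theorem DE.phi_mem (h : DE q Φ x x0 k F) {p a : ℕ} [Fact p.Prime] [CharP F p]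
    (hq : q = p ^ a) {z : K} (hz : z ∈ IntermediateField.adjoin F {x}) :
    Φ z ∈ IntermediateField.adjoin F {x} := by
  rw [IntermediateField.mem_adjoin_simple_iff] at hz ⊢
  obtain ⟨P, Q, rfl⟩ := hz
  exact ⟨P.map (iterateFrobenius F p a), Q.map (iterateFrobenius F p a), by
    rw [map_div₀, h.phi_aeval hq, h.phi_aeval hq]⟩

open Classical in
/-- a relation over `F(x)` between elements of `R` gives one over `k(x₀)` -/
theorem DE.indep (h : DE q Φ x x0 k F) {p a : ℕ} [Fact p.Prime] [CharP F p]
    (hq : q = p ^ a) {ι : Type} (s : Finset ι) (v : ι → R)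
    (hv : ∀ g : ι → R, (∀ i ∈ s, g i ∈ IntermediateField.adjoin k {x0}) →
      ∑ i ∈ s, g i * v i = 0 → ∀ i ∈ s, g i = 0) :
    ∀ (n : ℕ) (g : ι → K), (∀ i ∈ s, g i ∈ IntermediateField.adjoin F {x}) →
      (∑ i ∈ s, g i * algebraMap R K (v i) = 0) → (s.filter (fun i => g i ≠ 0)).card = n →
      ∀ i ∈ s, g i = 0 := by
  classical
  intro n
  induction n using Nat.strong_induction_on with
  | _ n ih =>
    intro g hg hsum hcard
    by_contra hc
    push Not at hc
    obtain ⟨i0, hi0, hgi0⟩ := hc
    let g1 : ι → K := fun i => g i / g i0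
    have hg1m : ∀ i ∈ s, g1 i ∈ IntermediateField.adjoin F {x} := fun i hi =>
      div_mem (hg i hi) (hg i0 hi0)
    have hg1s : ∑ i ∈ s, g1 i * algebraMap R K (v i) = 0 := by
      have : ∑ i ∈ s, g1 i * algebraMap R K (v i) =
          (∑ i ∈ s, g i * algebraMap R K (v i)) / g i0 := by
        rw [Finset.sum_div]
        refine Finset.sum_congr rfl fun i _ => ?_
        simp only [g1]; ring
      rw [this, hsum, zero_div]
    let g2 : ι → K := fun i => Φ (g1 i) - g1 i
    have hg2m : ∀ i ∈ s, g2 i ∈ IntermediateField.adjoin F {x} := fun i hi =>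
      sub_mem (h.phi_mem hq (hg1m i hi)) (hg1m i hi)
    have hg2s : ∑ i ∈ s, g2 i * algebraMap R K (v i) = 0 := by
      have h1 := congrArg Φ hg1s
      rw [map_sum, map_zero] at h1
      simp only [map_mul, h.inv] at h1
      simp only [g2, sub_mul, Finset.sum_sub_distrib, h1, hg1s, sub_zero]
    have hlt : (s.filter (fun i => g2 i ≠ 0)).card < n := by
      rw [← hcard]
      apply Finset.card_lt_card
      rw [Finset.ssubset_iff_of_subset]
      · refine ⟨i0, Finset.mem_filter.2 ⟨hi0, hgi0⟩, ?_⟩
        rw [Finset.mem_filter]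
        push Not
        intro _
        simp only [g2, g1, div_self hgi0, map_one, sub_self]
      · intro i hi
        rw [Finset.mem_filter] at hi ⊢
        refine ⟨hi.1, fun h0 => hi.2 ?_⟩
        simp only [g2, g1, h0, zero_div, map_zero, sub_zero]
    have hg20 := ih _ hlt g2 hg2m hg2s rfl
    have hfix : ∀ i ∈ s, ∃ r ∈ IntermediateField.adjoin k {x0}, algebraMap R K r = g1 i := by
      intro i hi
      exact h.descend hq (hg1m i hi) (sub_eq_zero.1 (hg20 i hi))
    choose! r hr1 hr2 using hfix
    have h1 : ∑ i ∈ s, r i * v i = 0 := by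
      apply (algebraMap R K).injective
      rw [map_sum, map_zero, ← hg1s]
      refine Finset.sum_congr rfl fun i hi => ?_
      rw [map_mul, hr2 i hi]
    have h2 := hv r hr1 h1 i0 hi0
    have h3 := hr2 i0 hi0
    rw [h2, map_zero] at h3
    simp only [g1, div_self hgi0] at h3
    exact zero_ne_one h3

/-- `R` is finite over `k(x₀)` -/
theorem DE.finite (h : DE q Φ x x0 k F) {p a : ℕ} [Fact p.Prime] [CharP F p]
    (hq : q = p ^ a) (b : Finset K)
    (hb : ∀ r : R, algebraMap R K r ∈ Submodule.span (IntermediateField.adjoin F {x}) (b : Set K)) :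
    FiniteDimensional (IntermediateField.adjoin k {x0}) R := by
  classical
  have hrank : Module.rank (IntermediateField.adjoin k {x0}) R ≤ b.card := by
    apply rank_le
    intro s hs
    have hli : LinearIndependent (IntermediateField.adjoin F {x})
        (fun i : s => algebraMap R K (i : R)) := by
      rw [Fintype.linearIndependent_iff]
      intro g hg i
      have h1 := h.indep hq (Finset.univ : Finset s) (fun i => (i : R)) ?_ _
        (fun i => (g i : K)) (fun i _ => (g i).2) ?_ rfl i (Finset.mem_univ i)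
      · exact Subtype.ext h1
      · intro r hr hsum i _
        rw [Fintype.linearIndependent_iff] at hs
        have h2 := hs (fun i => ⟨r i, hr i (Finset.mem_univ i)⟩) (by
          rw [← hsum]
          refine Finset.sum_congr rfl fun i _ => ?_
          rw [Algebra.smul_def]; rfl) i
        exact congrArg Subtype.val h2
      · rw [← hg]
        refine Finset.sum_congr rfl fun i _ => ?_
        rw [Algebra.smul_def]; rfl
    have h2 := linearIndependent_le_span' _ hli (b : Set K) (by
      rintro _ ⟨i, rfl⟩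
      exact hb _)
    simpa using h2
  exact Module.rank_lt_aleph0_iff.1 (hrank.trans_lt (Cardinal.natCast_lt_aleph0))

/-- `R` is separable over `k(x₀)` -/
theorem DE.separable (h : DE q Φ x x0 k F) {p a : ℕ} [Fact p.Prime] [CharP F p]
    (hq : q = p ^ a)
    (hs : ∀ r : R, IsSeparable (IntermediateField.adjoin F {x}) (algebraMap R K r)) :
    Algebra.IsSeparable (IntermediateField.adjoin k {x0}) R := by
  classical
  refine ⟨fun r => ?_⟩
  let E := IntermediateField.adjoin F {x}
  let E0 := IntermediateField.adjoin k {x0}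
  let P : E[X] := minpoly E (algebraMap R K r)
  have hsep : P.Separable := hs r
  have hint : IsIntegral E (algebraMap R K r) := (hs r).isIntegral
  have hmon : P.Monic := minpoly.monic hint
  -- the action of Φ on E
  let φ : E →+* E := (Φ.toRingHom.comp (algebraMap E K)).codRestrict E
    (fun z => h.phi_mem hq z.2)
  have hφ : ∀ z : E, ((φ z : E) : K) = Φ (z : K) := fun z => rfl
  have h1 : aeval (algebraMap R K r) (P.map φ) = 0 := by
    have h2 : ∀ G : E[X], aeval (algebraMap R K r) (G.map φ) = Φ (aeval (algebraMap R K r) G) := by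
      intro G
      induction G using Polynomial.induction_on' with
      | add P Q hP hQ => simp only [map_add, Polynomial.map_add, hP, hQ]
      | monomial n c =>
        rw [aeval_monomial, Polynomial.map_monomial, aeval_monomial, map_mul, map_pow, h.inv]
        rfl
    rw [h2, minpoly.aeval, map_zero]
  have h2 : P.map φ = P := by
    have h3 : P ∣ P.map φ := minpoly.dvd _ _ h1
    exact eq_of_monic_of_dvd_of_natDegree_le hmon (hmon.map φ) h3 (by rw [natDegree_map])
  -- descend the coefficients
  have h3 : ∀ n, ∃ r' : E0, algebraMap R K (r' : R) = (P.coeff n : K) := by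
    intro n
    have h4 : Φ ((P.coeff n : E) : K) = (P.coeff n : K) := by
      rw [← hφ, ← coeff_map, h2]
    obtain ⟨r', hr', h5⟩ := h.descend hq (P.coeff n).2 h4
    exact ⟨⟨r', hr'⟩, h5⟩
  let i0 : E0 →+* K := (algebraMap R K).comp (algebraMap E0 R)
  have h4 : P.map (algebraMap E K) ∈ lifts i0 := by
    rw [lifts_iff_coeff_lifts]
    intro n
    obtain ⟨r', hr'⟩ := h3 n
    rw [coeff_map]
    exact ⟨r', hr'⟩
  obtain ⟨P0, hP0⟩ := (mem_lifts _).1 h4
  have h5 : P0.Separable := by
    rw [← Polynomial.separable_map i0, hP0, Polynomial.separable_map]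
    exact hsep
  have h6 : aeval r P0 = 0 := by
    apply (algebraMap R K).injective
    rw [map_zero]
    have h7 : algebraMap R K (aeval r P0) = eval (algebraMap R K r) (P0.map i0) := by
      rw [eval_map, aeval_def, hom_eval₂]
    rw [h7, hP0, eval_map]
    exact minpoly.aeval E (algebraMap R K r)
  exact h5.of_dvd (minpoly.dvd _ _ h6)

end Pool.Agent.Y732.PS
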