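import Pool.Agent.Y732.PS.CLFb
import Pool.Agent.Y732.PS.CLFc
import Pool.Agent.Y157.PS.Stm

/-!
# PS-CLF (4): places of `N` above the places of `R`

(helper732, project PS of helper157.)
-/

set_option autoImplicit false
set_option linter.all false

open Polynomial FF

namespace Pool.Agent.Y732.PS

/-- a place of `R` has a prolongation to `N` -/
theorem exists_above {k R F N : Type} [Field k] [Field R] [Field F] [Field N] [Algebra k R]
    [Algebra F N] [IsAlgClosed F] [IsFF F N] (q : ℕ) (hq : 1 < q)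
    (htor : ∀ c : F, ∃ m : ℕ, 0 < m ∧ c ^ (q ^ m) = c) (j : R →+* N) (w0 : Place k R) :
    ∃ (w : Place F N) (e : ℤ), 0 < e ∧ ∀ r : R, r ≠ 0 → w.ord (j r) = e * w0.ord r := by
  classical
  have hcurve : H707R3.IsCurveFunctionField F N :=
    { essFiniteType := IsFF.ess
      trdeg_eq_one := IsFF.trdeg
      algClosed := by
        intro a ha
        exact minpoly.mem_range_of_degree_eq_one F a
          (IsAlgClosed.degree_eq_one_of_irreducible F (minpoly.irreducible ha.isIntegral)) }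
  obtain ⟨B, hB, hloc⟩ := IsLocalRing.exists_factor_valuationRing (j.comp w0.O.subtype)
  have hmem : ∀ r : R, w0.Reg r → j r ∈ B := fun r hr => hB ⟨r, hr⟩
  have hinv : ∀ r : R, w0.Reg r → (j r)⁻¹ ∈ B → r ≠ 0 → w0.Reg r⁻¹ := by
    intro r hr hi hr0
    have h1 : IsUnit (((j.comp w0.O.subtype).codRestrict B.toSubring hB) ⟨r, hr⟩) := by
      refine IsUnit.of_mul_eq_one ⟨(j r)⁻¹, hi⟩ ?_
      apply Subtype.ext
      change j r * (j r)⁻¹ = 1
      exact mul_inv_cancel₀ (by rwa [Ne, map_eq_zero])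
    have h2 := hloc.map_nonunit _ h1
    rw [w0.isUnit_O_iff hr] at h2
    right
    rw [w0.ord_inv]
    omega
  have hconst : ∀ c : F, algebraMap F N c ∈ B := by
    intro c
    by_cases hc0 : c = 0
    · rw [hc0, map_zero]; exact zero_mem _
    obtain ⟨m, hm, hc⟩ := htor c
    rcases B.mem_or_inv_mem (algebraMap F N c) with h | h
    · exact h
    · have hqm : 1 < q ^ m := Nat.one_lt_pow hm.ne' hq
      have h1 : c ^ (q ^ m - 1) = 1 := by
        have h2 : c ^ (q ^ m - 1) * c = 1 * c := by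
          rw [← pow_succ, one_mul, show q ^ m - 1 + 1 = q ^ m by omega, hc]
        exact mul_right_cancel₀ hc0 h2
      have h2 : c = (c⁻¹) ^ (q ^ m - 2) := by
        have h3 : c ^ (q ^ m - 2) * c = 1 := by
          rw [← pow_succ, show q ^ m - 2 + 1 = q ^ m - 1 by omega, h1]
        rw [inv_pow]
        exact eq_inv_of_mul_eq_one_right h3
      rw [h2, map_pow, map_inv₀]
      exact pow_mem h _
  obtain ⟨t, ht0, ht⟩ := w0.surj
  have hjt0 : j t ≠ 0 := by rwa [Ne, map_eq_zero]
  have htop : B ≠ ⊤ := by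
    intro h0
    have h1 : (j t)⁻¹ ∈ B := by rw [h0]; trivial
    have h2 := hinv t (Or.inr (by omega)) h1 ht0
    rw [w0.reg_iff (inv_ne_zero ht0), w0.ord_inv] at h2
    omega
  let v : H707R3.Place F N := ⟨B, hconst, htop⟩
  obtain ⟨w, hw⟩ := Pool.Agent.H525R3.FFp.toVal_surjective hcurve v
  have hwO : w.O = B := congrArg H707R3.Place.ring hw
  have hwreg : ∀ z : N, w.Reg z ↔ z ∈ B := by
    intro z
    rw [← w.mem_O, hwO]
  -- units
  have hunit : ∀ r : R, r ≠ 0 → w0.ord r = 0 → w.ord (j r) = 0 := by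
    intro r hr0 hr
    have hjr0 : j r ≠ 0 := by rwa [Ne, map_eq_zero]
    have h1 : w.Reg (j r) := (hwreg _).2 (hmem r (Or.inr hr.ge))
    have h2 : w.Reg (j r⁻¹) := (hwreg _).2 (hmem r⁻¹ (Or.inr (by rw [w0.ord_inv]; omega)))
    rw [w.reg_iff hjr0] at h1
    rw [map_inv₀, w.reg_iff (inv_ne_zero hjr0), w.ord_inv] at h2
    omega
  have hpos : 0 < w.ord (j t) := by
    have h1 : w.Reg (j t) := (hwreg _).2 (hmem t (Or.inr (by omega)))
    rw [w.reg_iff hjt0] at h1
    by_contra hc
    have h2 : w.ord (j t) = 0 := by omega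
    have h3 : (j t)⁻¹ ∈ B := by
      rw [← hwreg]
      right
      rw [w.ord_inv]; omega
    have h4 := hinv t (Or.inr (by omega)) h3 ht0
    rw [w0.reg_iff (inv_ne_zero ht0), w0.ord_inv] at h4
    omega
  refine ⟨w, w.ord (j t), hpos, ?_⟩
  intro r hr
  have hjr0 : j r ≠ 0 := by rwa [Ne, map_eq_zero]
  have h1 : w0.ord (r * t ^ (-w0.ord r)) = 0 := by
    rw [w0.ord_mul hr (zpow_ne_zero _ ht0), w0.ord_zpow, ht]; ring
  have h2 := hunit _ (mul_ne_zero hr (zpow_ne_zero _ ht0)) h1
  rw [map_mul, map_zpow₀, w.ord_mul hjr0 (zpow_ne_zero _ hjt0), w.ord_zpow] at h2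
  linarith

/-- the residue field of a place over an algebraically closed field -/
theorem red_const {F N : Type} [Field F] [Field N] [Algebra F N] [IsAlgClosed F] [IsFF F N]
    (w : Place F N) (u : N) (hu : w.Reg u) : ∃ c : F, w.red u = w.red (algebraMap F N c) := by
  have h1 : FiniteDimensional F w.RF := inferInstance
  have h2 : Function.Surjective (algebraMap F w.RF) :=
    (IsAlgClosed.algebraMap_bijective_of_isIntegral (k := F) (K := w.RF)).2
  obtain ⟨c, hc⟩ := h2 (w.red u)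
  exact ⟨c, by rw [← hc]; rfl⟩

/-- orders at places of `R` from the orders at the places of `N` -/
theorem dvd_ord {k R F N : Type} [Field k] [Field R] [Field F] [Field N] [Algebra k R]
    [Algebra F N] [IsAlgClosed F] [IsFF F N] (p : ℕ) [Fact p.Prime] [CharP F p] {q a : ℕ}
    (ha : 0 < a) (hq : q = p ^ a) (htor : ∀ c : F, ∃ m : ℕ, 0 < m ∧ c ^ (q ^ m) = c)
    (Φ : N ≃+* N) (j : R →+* N) (hconst : ∀ c : F, Φ (algebraMap F N c) = algebraMap F N (c ^ q))
    (hinv : ∀ r, Φ (j r) = j r) (hfix : ∀ z, Φ z = z → ∃ r, j r = z)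
    (horb : ∀ z : N, ∃ m : ℕ, 0 < m ∧ (Φ ^ m) z = z) (r : R) (hr : r ≠ 0) (L : ℤ)
    (hL : ∀ w : Place F N, L ∣ w.ord (j r)) (w0 : Place k R) : L ∣ w0.ord r := by
  have hp := (Fact.out : p.Prime)
  have hq1 : 1 < q := by
    rw [hq]; exact Nat.one_lt_pow ha.ne' hp.one_lt
  obtain ⟨w, e, he, hw⟩ := exists_above q hq1 htor j w0
  have hCE : CE q Φ j w w0 e :=
    { const := hconst
      inv := hinv
      fix := hfix
      orb := horb
      epos := he
      res := hw
      alg := fun u hu => red_const w u hu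
      tor := htor }
  have h1 := hCE.e_eq_one p ha hq
  have h2 := hw r hr
  rw [h1, one_mul] at h2
  rw [← h2]
  exact hL w

end Pool.Agent.Y732.PS
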